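import Pool.Agent.Helper69.SW.St

/-! # Project SW (MP_65faa7): module CoS, shifts and scaling of the coefficient functions -/

set_option autoImplicit false

open scoped BigOperators ENNReal Topology
open Pool.LE Pool.NL Pool.CL Pool.CB Filter

namespace Pool.SW
namespace CoSM

theorem ap_shift (hGSt : StGSt) (hGS : StGS) {d : ℕ} (hd : 1 ≤ d) (L L' : Finset (Zd d)) (a x : Zd d)
    (hL : ∀ y ∈ L, y + a ∈ L') (f g : Zd d → ℝ) (hg : ∀ y, 0 ≤ g y) (hfg : ∀ y ∈ L, f y ≤ g (y + a)) :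
    ap L (GS L) f x ≤ ap L' (GS L') g (x + a) := by
  classical
  have hsub : L.image (fun y => y + a) ⊆ L' := by
    intro z hz
    obtain ⟨y, hy, rfl⟩ := Finset.mem_image.1 hz
    exact hL y hy
  unfold ap
  calc ∑ v ∈ L, GS L x v * f v ≤ ∑ v ∈ L, GS L' (x + a) (v + a) * g (v + a) := by
        refine Finset.sum_le_sum fun v hv => ?_
        have h1 : GS L x v ≤ GS L' (x + a) (v + a) := by
          rw [← (hGSt d hd L).1 a x v]
          exact (hGSt d hd _).2 L' hsub _ _
        calc GS L x v * f v ≤ GS L x v * g (v + a) :=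
              mul_le_mul_of_nonneg_left (hfg v hv) ((hGS d hd L).1 _ _)
          _ ≤ GS L' (x + a) (v + a) * g (v + a) := mul_le_mul_of_nonneg_right h1 (hg _)
    _ = ∑ w ∈ L.image (fun y => y + a), GS L' (x + a) w * g w := by
        rw [Finset.sum_image]
        intro y _ z _ h
        exact add_right_cancel h
    _ ≤ ∑ w ∈ L', GS L' (x + a) w * g w := by
        refine Finset.sum_le_sum_of_subset_of_nonneg hsub fun w _ _ => ?_
        exact mul_nonneg ((hGS d hd L').1 _ _) (hg w)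

theorem ap_smul {d : ℕ} (L : Finset (Zd d)) (S : Zd d → Zd d → ℝ) (t : ℝ) (g : Zd d → ℝ) (x : Zd d) :
    ap L S (fun y => t * g y) x = t * ap L S g x := by
  unfold ap
  rw [Finset.mul_sum]
  refine Finset.sum_congr rfl fun v _ => ?_
  ring

theorem TS_shift (hGSt : StGSt) (hGS : StGS) {d n N : ℕ} (hd : 1 ≤ d) (hn : 1 ≤ n) (hnN : n ≤ N) {c : ℝ}
    (hc : 0 < c) (L L' : Finset (Zd d)) (a x : Zd d) (hL : ∀ y ∈ L, y + a ∈ L') (f g : Zd d → ℝ) (t : ℝ)
    (ht : 0 ≤ t) (hg : ∀ y, 0 ≤ g y) (hfg : ∀ y ∈ L, f y ≤ t * g (y + a)) :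
    TS L n c f x ≤ ((N : ℝ) / n) ^ 2 * t * TS L' N c g (x + a) := by
  have hn0 : (0 : ℝ) < n := by exact_mod_cast hn
  have hN0 : (0 : ℝ) < N := by exact_mod_cast hn.trans hnN
  have h := ap_shift hGSt hGS hd L L' a x hL f (fun y => t * g y) (fun y => mul_nonneg ht (hg y)) hfg
  rw [ap_smul] at h
  unfold TS
  have h2 : c / (n : ℝ) ^ 2 * ap L (GS L) f x ≤ c / (n : ℝ) ^ 2 * (t * ap L' (GS L') g (x + a)) :=
    mul_le_mul_of_nonneg_left h (by positivity)
  refine h2.trans (le_of_eq ?_)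
  field_simp

theorem main (hGSt : StGSt) (hGS : StGS) (hUp : StUp) {d n N : ℕ} (hd : 1 ≤ d) (hn : 1 ≤ n) (hnN : n ≤ N)
    {c V : ℝ} (hc : 0 < c) (hV : 0 < V) (L L' : Finset (Zd d)) (a : Zd d) (hL : ∀ y ∈ L, y + a ∈ L')
    (f g : Zd d → ℝ) (hf : ∀ y, 0 ≤ f y) (hg : ∀ y, 0 ≤ g y) (hfg : ∀ y ∈ L, f y ≤ g (y + a)) :
    ∀ (r : ℕ) (x : Zd d), co (TS L n c) V f r x ≤ ((N : ℝ) / n) ^ (2 + 4 * r) * co (TS L' N c) V g r (x + a) := by
  have hN : 1 ≤ N := hn.trans hnN
  have hn0 : (0 : ℝ) < n := by exact_mod_cast hn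
  have hN0 : (0 : ℝ) < N := by exact_mod_cast hN
  have hq : 0 ≤ (N : ℝ) / n := by positivity
  have hcf : ∀ r x, 0 ≤ co (TS L n c) V f r x := fun r x =>
    ((hUp d n L c V 0 f hd hn hc hV le_rfl hf).1 r x).1
  have hcg : ∀ r x, 0 ≤ co (TS L' N c) V g r x := fun r x =>
    ((hUp d N L' c V 0 g hd hN hc hV le_rfl hg).1 r x).1
  intro r
  induction r using Nat.strong_induction_on with
  | _ r ih =>
    intro x
    cases r with
    | zero =>
      rw [co, co]
      have h := TS_shift hGSt hGS hd hn hnN hc L L' a x hL f g 1 zero_le_one hg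
        (fun y hy => by rw [one_mul]; exact hfg y hy)
      simpa using h
    | succ r =>
      rw [co, co]
      set q : ℝ := (N : ℝ) / n with hqd
      set F : Zd d → ℝ := fun v => ∑ i : Fin (r + 1), co (TS L n c) V f i v * co (TS L n c) V f (r - i) v /
        (((r - i : ℕ) : ℝ) + 1) with hF
      set G : Zd d → ℝ := fun v => ∑ i : Fin (r + 1), co (TS L' N c) V g i v * co (TS L' N c) V g (r - i) v /
        (((r - i : ℕ) : ℝ) + 1) with hG
      have hG0 : ∀ y, 0 ≤ G y := by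
        intro y
        refine Finset.sum_nonneg fun i _ => ?_
        have h1 := hcg i y
        have h2 := hcg (r - i) y
        positivity
      have hFG : ∀ y ∈ L, F y ≤ q ^ (4 + 4 * r) * G (y + a) := by
        intro y _
        simp only [hF, hG]
        rw [Finset.mul_sum]
        refine Finset.sum_le_sum fun i _ => ?_
        have hi : (i : ℕ) ≤ r := Nat.lt_succ_iff.1 i.2
        have h1 := ih i (by omega) y
        have h2 := ih (r - i) (by omega) y
        have h3 : co (TS L n c) V f i y * co (TS L n c) V f (r - i) y ≤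
            (q ^ (2 + 4 * (i : ℕ)) * co (TS L' N c) V g i (y + a)) *
              (q ^ (2 + 4 * (r - (i : ℕ))) * co (TS L' N c) V g (r - i) (y + a)) :=
          mul_le_mul h1 h2 (hcf _ _) (mul_nonneg (pow_nonneg hq _) (hcg _ _))
        have h4 : q ^ (2 + 4 * (i : ℕ)) * q ^ (2 + 4 * (r - (i : ℕ))) = q ^ (4 + 4 * r) := by
          rw [← pow_add]
          congr 1
          omega
        have h5 : (0 : ℝ) < ((r - i : ℕ) : ℝ) + 1 := by positivity
        calc co (TS L n c) V f i y * co (TS L n c) V f (r - i) y / (((r - i : ℕ) : ℝ) + 1)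
            ≤ (q ^ (2 + 4 * (i : ℕ)) * co (TS L' N c) V g i (y + a)) *
              (q ^ (2 + 4 * (r - (i : ℕ))) * co (TS L' N c) V g (r - i) (y + a)) /
                (((r - i : ℕ) : ℝ) + 1) := div_le_div_of_nonneg_right h3 h5.le
          _ = (q ^ (2 + 4 * (i : ℕ)) * q ^ (2 + 4 * (r - (i : ℕ)))) * (co (TS L' N c) V g i (y + a) *
              co (TS L' N c) V g (r - i) (y + a) / (((r - i : ℕ) : ℝ) + 1)) := by ring
          _ = q ^ (4 + 4 * r) * (co (TS L' N c) V g i (y + a) *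
              co (TS L' N c) V g (r - i) (y + a) / (((r - i : ℕ) : ℝ) + 1)) := by rw [h4]
      have h := TS_shift hGSt hGS hd hn hnN hc L L' a x hL F G (q ^ (4 + 4 * r)) (pow_nonneg hq _) hG0 hFG
      calc V * TS L n c F x ≤ V * (q ^ 2 * q ^ (4 + 4 * r) * TS L' N c G (x + a)) :=
            mul_le_mul_of_nonneg_left h hV.le
        _ = q ^ (2 + 4 * (r + 1)) * (V * TS L' N c G (x + a)) := by
            rw [← pow_add, show 2 + (4 + 4 * r) = 2 + 4 * (r + 1) by ring]
            ring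

end CoSM

theorem hCoS (hGSt : StGSt) (hGS : StGS) (hRR : StRR) (_hTS : StTS) (hUp : StUp) : StCoS := by
  intro d n N M r c V η a x hd hn hnN hc hV hη ha
  obtain ⟨-, -, -, h4, -⟩ := hRR d n hd hn
  have hs0 : ∀ (m : ℕ) (y : Zd d), 0 ≤ sB m y := by
    intro m y
    unfold sB Pool.NL.ind
    split_ifs
    · exact zero_le_one
    · exact le_rfl
  refine CoSM.main hGSt hGS hUp hd hn hnN hc hV (Lam d n M) (Lam d N M) a ?_ _ _ ?_ ?_ ?_ r x
  · intro y hy
    exact (h4 N a y hnN ha).2.2.2.2 M hy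
  · intro y
    exact add_nonneg (hs0 _ _) hη
  · intro y
    exact add_nonneg (hs0 _ _) hη
  · intro y _
    have := (h4 N a y hnN ha).2.2.1
    linarith

end Pool.SW
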